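import Pool.Agent.Lib.MP_6bd702_pr_h23.EdDefs

/-!
# Corners and the interface permutation: definitions

A corner is a vertex together with one of its four faces. `nxt ω` rotates counterclockwise around
the vertex across a closed edge, and advances along an open edge, keeping the face. Its orbits are
the interfaces (loops) between the open clusters (vertices on the left) and the dual clusters
(faces on the right).
-/

set_option autoImplicit false

namespace Pool.Agent.PercU

open Pool.Agent.MP_6bd702.H23 (Ed)

/-- A corner: the vertex `(x, y)` and the face with lower left corner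
`(if sx then x else x - 1, if sy then y else y - 1)`. -/
abbrev Cor := ℤ × ℤ × Bool × Bool

/-- The vertex of a corner. -/
def vtx (k : Cor) : ℤ × ℤ := (k.1, k.2.1)

/-- The face of a corner. -/
def fce (k : Cor) : ℤ × ℤ :=
  (if k.2.2.1 then k.1 else k.1 - 1, if k.2.2.2 then k.2.1 else k.2.1 - 1)

/-- The edge which is queried at a corner: the first edge counterclockwise from the face. -/
def qry : Cor → Ed
  | (x, y, true, true) => (x, y, true)
  | (x, y, false, true) => (x - 1, y, false)
  | (x, y, false, false) => (x, y - 1, true)
  | (x, y, true, false) => (x, y, false)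

/-- The edge on the other side of the face: the first edge clockwise from the face. -/
def qryb : Cor → Ed
  | (x, y, true, true) => (x, y, false)
  | (x, y, false, true) => (x, y, true)
  | (x, y, false, false) => (x - 1, y, false)
  | (x, y, true, false) => (x, y - 1, true)

/-- Counterclockwise rotation around the vertex. -/
def rot : Cor → Cor
  | (x, y, true, true) => (x, y, false, true)
  | (x, y, false, true) => (x, y, false, false)
  | (x, y, false, false) => (x, y, true, false)
  | (x, y, true, false) => (x, y, true, true)

/-- Clockwise rotation around the vertex. -/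
def rotb : Cor → Cor
  | (x, y, true, true) => (x, y, true, false)
  | (x, y, false, true) => (x, y, true, true)
  | (x, y, false, false) => (x, y, false, true)
  | (x, y, true, false) => (x, y, false, false)

/-- Advance along the queried edge (the face is kept on the right). -/
def adv : Cor → Cor
  | (x, y, true, true) => (x, y + 1, true, false)
  | (x, y, false, true) => (x - 1, y, true, true)
  | (x, y, false, false) => (x, y - 1, false, true)
  | (x, y, true, false) => (x + 1, y, false, false)

/-- The inverse of `adv`. -/
def advb : Cor → Cor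
  | (x, y, true, false) => (x, y - 1, true, true)
  | (x, y, true, true) => (x + 1, y, false, true)
  | (x, y, false, true) => (x, y + 1, false, false)
  | (x, y, false, false) => (x - 1, y, true, false)

open Classical in
/-- One step of the interface. -/
noncomputable def nxt (ω : Set Ed) (k : Cor) : Cor := if qry k ∈ ω then adv k else rot k

open Classical in
/-- One step backwards. -/
noncomputable def prv (ω : Set Ed) (k : Cor) : Cor := if qryb k ∈ ω then advb k else rotb k

theorem rot_rotb (k : Cor) : rot (rotb k) = k := by
  obtain ⟨x, y, _ | _, _ | _⟩ := k <;> rfl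

theorem rotb_rot (k : Cor) : rotb (rot k) = k := by
  obtain ⟨x, y, _ | _, _ | _⟩ := k <;> rfl

theorem adv_advb (k : Cor) : adv (advb k) = k := by
  obtain ⟨x, y, _ | _, _ | _⟩ := k <;> simp [adv, advb]

theorem advb_adv (k : Cor) : advb (adv k) = k := by
  obtain ⟨x, y, _ | _, _ | _⟩ := k <;> simp [adv, advb]

theorem qryb_rot (k : Cor) : qryb (rot k) = qry k := by
  obtain ⟨x, y, _ | _, _ | _⟩ := k <;> rfl

theorem qry_rotb (k : Cor) : qry (rotb k) = qryb k := by
  obtain ⟨x, y, _ | _, _ | _⟩ := k <;> rfl

theorem qryb_adv (k : Cor) : qryb (adv k) = qry k := by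
  obtain ⟨x, y, _ | _, _ | _⟩ := k <;> simp [adv, qry, qryb]

theorem qry_advb (k : Cor) : qry (advb k) = qryb k := by
  obtain ⟨x, y, _ | _, _ | _⟩ := k <;> simp [advb, qry, qryb]

theorem vtx_rot (k : Cor) : vtx (rot k) = vtx k := by
  obtain ⟨x, y, _ | _, _ | _⟩ := k <;> rfl

theorem fce_adv (k : Cor) : fce (adv k) = fce k := by
  obtain ⟨x, y, _ | _, _ | _⟩ := k <;> simp [adv, fce]

theorem vtx_rotb (k : Cor) : vtx (rotb k) = vtx k := by
  obtain ⟨x, y, _ | _, _ | _⟩ := k <;> rfl

theorem fce_advb (k : Cor) : fce (advb k) = fce k := by
  obtain ⟨x, y, _ | _, _ | _⟩ := k <;> simp [advb, fce]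

theorem prv_nxt (ω : Set Ed) (k : Cor) : prv ω (nxt ω k) = k := by
  unfold nxt prv
  by_cases h : qry k ∈ ω
  · simp only [h, if_true, qryb_adv, advb_adv]
  · simp only [h, if_false, qryb_rot, rotb_rot]

theorem nxt_prv (ω : Set Ed) (k : Cor) : nxt ω (prv ω k) = k := by
  unfold nxt prv
  by_cases h : qryb k ∈ ω
  · simp only [h, if_true, qry_advb, adv_advb]
  · simp only [h, if_false, qry_rotb, rot_rotb]

/-- The interface permutation. -/
noncomputable def nxtE (ω : Set Ed) : Equiv.Perm Cor where
  toFun := nxt ω
  invFun := prv ω
  left_inv := prv_nxt ω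
  right_inv := nxt_prv ω

end Pool.Agent.PercU
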