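import Pool.Agent.Lib.MP_6bd702_pr_h23.Small
import Pool.Agent.Lib.MP_6bd702_percu.CornerDefs

/-!
# Corners and the interface permutation

A corner is a vertex together with one of its four faces. `nxt ω` rotates counterclockwise around
the vertex across a closed edge, and advances along an open edge, keeping the face. Its orbits are
the interfaces (loops) between the open clusters (vertices on the left) and the dual clusters
(faces on the right).
-/

set_option autoImplicit false

namespace Pool.Agent.PercU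

open Pool.Agent.MP_6bd702.H23

/-- The two ends of the queried edge: the vertex of the corner and of the advanced corner. -/
theorem ends_qry (k : Cor) : (ea (qry k) = vtx k ∧ eb (qry k) = vtx (adv k)) ∨
    (ea (qry k) = vtx (adv k) ∧ eb (qry k) = vtx k) := by
  obtain ⟨x, y, _ | _, _ | _⟩ := k <;> simp [adv, qry, vtx]

/-- The two faces of the queried edge: the face of the corner and of the rotated corner. -/
theorem faces_qry (k : Cor) : (f1 (qry k) = fce k ∧ f2 (qry k) = fce (rot k)) ∨
    (f1 (qry k) = fce (rot k) ∧ f2 (qry k) = fce k) := by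
  obtain ⟨x, y, _ | _, _ | _⟩ := k <;> simp [rot, qry, fce]

theorem nxt_of_mem {ω : Set Ed} {k : Cor} (h : qry k ∈ ω) : nxt ω k = adv k := if_pos h

theorem nxt_of_notMem {ω : Set Ed} {k : Cor} (h : qry k ∉ ω) : nxt ω k = rot k := if_neg h

theorem prv_of_mem {ω : Set Ed} {k : Cor} (h : qryb k ∈ ω) : prv ω k = advb k := if_pos h

theorem prv_of_notMem {ω : Set Ed} {k : Cor} (h : qryb k ∉ ω) : prv ω k = rotb k := if_neg h

theorem qryb_nxt (ω : Set Ed) (k : Cor) : qryb (nxt ω k) = qry k := by
  unfold nxt; split_ifs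
  · exact qryb_adv k
  · exact qryb_rot k

theorem qry_prv (ω : Set Ed) (k : Cor) : qry (prv ω k) = qryb k := by
  unfold prv; split_ifs
  · exact qry_advb k
  · exact qry_rotb k

theorem nxt_congr {ω ω' : Set Ed} {k : Cor} (h : qry k ∈ ω ↔ qry k ∈ ω') : nxt ω k = nxt ω' k := by
  by_cases h1 : qry k ∈ ω
  · rw [nxt_of_mem h1, nxt_of_mem (h.1 h1)]
  · rw [nxt_of_notMem h1, nxt_of_notMem fun h2 => h1 (h.2 h2)]

theorem prv_congr {ω ω' : Set Ed} {k : Cor} (h : qryb k ∈ ω ↔ qryb k ∈ ω') :
    prv ω k = prv ω' k := by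
  by_cases h1 : qryb k ∈ ω
  · rw [prv_of_mem h1, prv_of_mem (h.1 h1)]
  · rw [prv_of_notMem h1, prv_of_notMem fun h2 => h1 (h.2 h2)]

/-- The vertices of two consecutive corners are equal or joined by an open edge. -/
theorem step_vtx {ω : Set Ed} (k : Cor) :
    vtx (nxt ω k) = vtx k ∨ Step ω Set.univ (vtx k) (vtx (nxt ω k)) := by
  by_cases h : qry k ∈ ω
  · right
    rw [nxt_of_mem h]
    exact ⟨trivial, trivial, qry k, h, ends_qry k⟩
  · left
    rw [nxt_of_notMem h, vtx_rot]

/-- The dual edge crossing the queried edge joins the faces. -/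
theorem ends_dc_qry (k : Cor) : (ea (dc (qry k)) = fce k ∧ eb (dc (qry k)) = fce (rot k)) ∨
    (ea (dc (qry k)) = fce (rot k) ∧ eb (dc (qry k)) = fce k) := by
  rw [ea_dc, eb_dc]
  exact faces_qry k

/-- The faces of two consecutive corners are equal or joined across a closed edge. -/
theorem step_fce {ω : Set Ed} (k : Cor) :
    fce (nxt ω k) = fce k ∨ Step (du ω) Set.univ (fce k) (fce (nxt ω k)) := by
  by_cases h : qry k ∈ ω
  · left
    rw [nxt_of_mem h, fce_adv]
  · right
    rw [nxt_of_notMem h]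
    refine ⟨trivial, trivial, dc (qry k), ?_, ends_dc_qry k⟩
    rw [mem_du, cr_dc]
    exact h

theorem conn_vtx {ω : Set Ed} (k : Cor) (n : ℕ) :
    Conn ω Set.univ (vtx k) (vtx ((nxt ω)^[n] k)) := by
  induction n with
  | zero => exact .refl
  | succ n ih =>
    rw [Function.iterate_succ_apply']
    rcases step_vtx (ω := ω) ((nxt ω)^[n] k) with h | h
    · rw [h]; exact ih
    · exact ih.tail h

theorem conn_fce {ω : Set Ed} (k : Cor) (n : ℕ) :
    Conn (du ω) Set.univ (fce k) (fce ((nxt ω)^[n] k)) := by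
  induction n with
  | zero => exact .refl
  | succ n ih =>
    rw [Function.iterate_succ_apply']
    rcases step_fce (ω := ω) ((nxt ω)^[n] k) with h | h
    · rw [h]; exact ih
    · exact ih.tail h

/-! ### Duality of corners -/

/-- The same corner seen in the dual lattice: the face becomes the vertex; the vertex `(x, y)`
becomes the dual face with lower left corner `(x - 1, y - 1)`. -/
def dcor (k : Cor) : Cor := ((fce k).1, (fce k).2, !k.2.2.1, !k.2.2.2)

theorem vtx_dcor (k : Cor) : vtx (dcor k) = fce k := rfl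

theorem fce_dcor (k : Cor) : fce (dcor k) = ((vtx k).1 - 1, (vtx k).2 - 1) := by
  obtain ⟨x, y, _ | _, _ | _⟩ := k <;> simp [dcor, fce, vtx]

/-- Duality exchanges forwards and backwards. -/
theorem nxt_dcor (ω : Set Ed) (k : Cor) : nxt (du ω) (dcor k) = dcor (prv ω k) := by
  have h : qry (dcor k) ∈ du ω ↔ qryb k ∉ ω := by
    rw [mem_du]
    have : cr (qry (dcor k)) = qryb k := by
      obtain ⟨x, y, _ | _, _ | _⟩ := k <;> simp [dcor, fce, qry, qryb]
    rw [this]
  by_cases h1 : qryb k ∈ ω
  · rw [prv_of_mem h1, nxt_of_notMem (by rw [h]; exact not_not.2 h1)]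
    obtain ⟨x, y, _ | _, _ | _⟩ := k <;> simp [dcor, fce, rot, advb]
  · rw [prv_of_notMem h1, nxt_of_mem (h.2 h1)]
    obtain ⟨x, y, _ | _, _ | _⟩ := k <;> simp [dcor, fce, adv, rotb]

theorem prv_dcor (ω : Set Ed) (k : Cor) : prv (du ω) (dcor k) = dcor (nxt ω k) := by
  have h := nxt_dcor ω (nxt ω k)
  rw [prv_nxt] at h
  rw [← h, prv_nxt]

end Pool.Agent.PercU
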