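import Pool.Agent.Lib.MP_6bd702_percu.Corner

/-!
# The height lemma (task Height)

`P` is a chain of primal edges, `Q` a chain of dual edges (`Q e` is the coefficient of the dual
edge crossing `e`), `J` a chain of corners (a corner joins its vertex to its face). If `P + Q + J`
is closed, there is a height on the corners which changes by `P` when we rotate across an edge and
by `Q` when we advance along an edge.
-/

set_option autoImplicit false

namespace Pool.Agent.PercU

open Pool.Agent.MP_6bd702.H23

/-- The boundary of a dual chain, at a face. -/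
def bdf (Q : Ed → ZMod 2) (f : ℤ × ℤ) : ZMod 2 :=
  Q (f.1, f.2, true) + Q (f.1 + 1, f.2, true) + Q (f.1, f.2, false) + Q (f.1, f.2 + 1, false)

/-- The sum over the four corners at a vertex. -/
def Jv (J : Cor → ZMod 2) (v : ℤ × ℤ) : ZMod 2 :=
  J (v.1, v.2, true, true) + J (v.1, v.2, false, true) + J (v.1, v.2, false, false) +
    J (v.1, v.2, true, false)

/-- The sum over the four corners at a face. -/
def Jf (J : Cor → ZMod 2) (f : ℤ × ℤ) : ZMod 2 :=
  J (f.1, f.2, true, true) + J (f.1 + 1, f.2, false, true) + J (f.1 + 1, f.2 + 1, false, false) +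
    J (f.1, f.2 + 1, true, false)

namespace HeightAux

/-- Prefix sums. -/
noncomputable def ps (a : ℤ) (f : ℤ → ZMod 2) (i : ℤ) : ZMod 2 := ∑ x ∈ Finset.Icc a i, f x

theorem ps_lt {a : ℤ} (f : ℤ → ZMod 2) {i : ℤ} (h : i < a) : ps a f i = 0 := by
  unfold ps
  rw [Finset.Icc_eq_empty (by omega)]
  exact Finset.sum_empty

theorem ps_step {a : ℤ} {f : ℤ → ZMod 2} (hf : ∀ x, x < a → f x = 0) (i : ℤ) :
    ps a f i = ps a f (i - 1) + f i := by
  by_cases h : a ≤ i
  · unfold ps
    have e : Finset.Icc a i = insert i (Finset.Icc a (i - 1)) := by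
      ext x
      simp only [Finset.mem_Icc, Finset.mem_insert]
      omega
    rw [e, Finset.sum_insert (by simp), add_comm]
  · rw [ps_lt f (by omega), ps_lt f (by omega), hf i (by omega), add_zero]

theorem ps_eq_zero {a : ℤ} {f : ℤ → ZMod 2} (hf : ∀ x, f x = 0) (i : ℤ) : ps a f i = 0 :=
  Finset.sum_eq_zero fun x _ => hf x

/-- Two functions which agree far to the left and have the same differences agree. -/
theorem eq_of_step {a : ℤ} {A B : ℤ → ZMod 2} (h0 : ∀ i, i < a → A i = B i)
    (h : ∀ i, A i + A (i - 1) = B i + B (i - 1)) (i : ℤ) : A i = B i := by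
  have key : ∀ n : ℕ, ∀ i : ℤ, i < a + n → A i = B i := by
    intro n
    induction n with
    | zero =>
      intro i hi
      exact h0 i (by omega)
    | succ n ih =>
      intro i hi
      have h3 := h i
      rw [ih (i - 1) (by push_cast at hi; omega)] at h3
      exact add_right_cancel h3
  exact key (i - a + 1).toNat i (by omega)

/-- The formula. -/
noncomputable def ht (a : ℤ) (P Q : Ed → ZMod 2) (J : Cor → ZMod 2) (k : Cor) : ZMod 2 :=
  ps a (fun x' => P (x', (fce k).2, true)) (fce k).1 +
  ps a (fun i' => Q (i', k.2.1, false)) (k.1 - 1) +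
  (ps a (fun x' => J (x', k.2.1, false, k.2.2.2) + J (x', k.2.1, true, k.2.2.2)) (k.1 - 1) +
    if k.2.2.1 then J (k.1, k.2.1, false, k.2.2.2) else 0) +
  if k.2.2.2 then J k else 0

end HeightAux

open HeightAux in
/-- The height lemma. -/
theorem exists_height {P Q : Ed → ZMod 2} {J : Cor → ZMod 2} {a b c d : ℤ}
    (hP : ∀ e, P e ≠ 0 → ea e ∈ Rect a b c d ∧ eb e ∈ Rect a b c d)
    (hQ : ∀ e, Q e ≠ 0 → ea e ∈ Rect a b c d ∧ eb e ∈ Rect a b c d)
    (hJ : ∀ k, J k ≠ 0 → vtx k ∈ Rect a b c d)
    (h1 : ∀ v, bd P v = Jv J v) (h2 : ∀ f, bdf Q f = Jf J f) :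
    ∃ s : Cor → ZMod 2, (∀ k, s k + s (rot k) = J k + P (qry k)) ∧
      (∀ k, s k + s (adv k) = J k + Q (qry k)) ∧ ∀ k, vtx k ∉ Rect a b c d → s k = 0 := by
  -- vanishing
  have hP0 : ∀ e : Ed, (e.1 < a ∨ b < e.1 ∨ e.2.1 < c ∨ d < e.2.1 ∨
      (e.2.2 = true ∧ d < e.2.1 + 1)) → P e = 0 := by
    intro e he
    by_contra h
    obtain ⟨⟨h3, h4, h5, h6⟩, h7⟩ := hP e h
    simp only [ea] at h3 h4 h5 h6
    rcases he with he | he | he | he | ⟨he, he'⟩
    · omega
    · omega
    · omega
    · omega
    · rw [eb, if_pos he] at h7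
      have := h7.2.2.2
      simp only at this
      omega
  have hQ0 : ∀ e : Ed, (e.1 < a ∨ b < e.1 ∨ e.2.1 < c ∨ d < e.2.1) → Q e = 0 := by
    intro e he
    by_contra h
    obtain ⟨⟨h3, h4, h5, h6⟩, h7⟩ := hQ e h
    simp only [ea] at h3 h4 h5 h6
    omega
  have hJ0 : ∀ k : Cor, (k.1 < a ∨ b < k.1 ∨ k.2.1 < c ∨ d < k.2.1) → J k = 0 := by
    intro k hk
    by_contra h
    obtain ⟨h3, h4, h5, h6⟩ := hJ k h
    simp only [vtx] at h3 h4 h5 h6
    omega
  -- steps of the prefix sums
  have sP : ∀ j i, ps a (fun x' => P (x', j, true)) i =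
      ps a (fun x' => P (x', j, true)) (i - 1) + P (i, j, true) := fun j i =>
    ps_step (fun x hx => hP0 _ (Or.inl hx)) i
  have sQ : ∀ y i, ps a (fun i' => Q (i', y, false)) i =
      ps a (fun i' => Q (i', y, false)) (i - 1) + Q (i, y, false) := fun y i =>
    ps_step (fun x hx => hQ0 _ (Or.inl hx)) i
  have sJ : ∀ y (t : Bool) i, ps a (fun x' => J (x', y, false, t) + J (x', y, true, t)) i =
      ps a (fun x' => J (x', y, false, t) + J (x', y, true, t)) (i - 1) +
        (J (i, y, false, t) + J (i, y, true, t)) := fun y t i =>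
    ps_step (fun x hx => by rw [hJ0 _ (Or.inl hx), hJ0 _ (Or.inl hx), add_zero]) i
  -- the telescoping sums
  have tV : ∀ y i, ps a (fun x' => P (x', y, true)) i + ps a (fun x' => P (x', y - 1, true)) i +
      ps a (fun x' => J (x', y, false, true) + J (x', y, true, true)) i +
      ps a (fun x' => J (x', y, false, false) + J (x', y, true, false)) i = P (i, y, false) := by
    intro y
    refine eq_of_step (a := a) (fun i hi => ?_) (fun i => ?_)
    · rw [ps_lt _ hi, ps_lt _ hi, ps_lt _ hi, ps_lt _ hi, hP0 _ (Or.inl hi)]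
      rfl
    · rw [sP y i, sP (y - 1) i, sJ y true i, sJ y false i]
      have h3 := h1 (i, y)
      simp only [bd, Jv] at h3
      linear_combination (norm := (ring_nf; reduce_mod_char)) h3
  have tF : ∀ y i, ps a (fun x' => Q (x', y, false)) (i - 1) +
      ps a (fun x' => Q (x', y + 1, false)) (i - 1) +
      ps a (fun x' => J (x', y, false, true) + J (x', y, true, true)) i + J (i, y, true, true) +
      ps a (fun x' => J (x', y + 1, false, false) + J (x', y + 1, true, false)) (i - 1) +
      J (i, y + 1, false, false) = Q (i, y, true) := by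
    intro y
    refine eq_of_step (a := a) (fun i hi => ?_) (fun i => ?_)
    · rw [ps_lt _ (show i - 1 < a by omega), ps_lt _ (show i - 1 < a by omega), ps_lt _ hi,
        ps_lt _ (show i - 1 < a by omega), hJ0 _ (Or.inl hi), hJ0 _ (Or.inl hi), hQ0 _ (Or.inl hi)]
      rfl
    · rw [sQ y (i - 1), sQ (y + 1) (i - 1), sJ y true i, sJ (y + 1) false (i - 1)]
      have h3 := h2 (i - 1, y)
      simp only [bdf, Jf, sub_add_cancel] at h3
      linear_combination (norm := (ring_nf; reduce_mod_char)) h3
  -- the rules
  have hrot : ∀ k, ht a P Q J k + ht a P Q J (rot k) = J k + P (qry k) := by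
    rintro ⟨x, y, _ | _, _ | _⟩
    · have h3 := sP (y - 1) x
      simp only [ht, rot, qry, fce]
      simp only [if_true, if_false, Bool.false_eq_true]
      linear_combination (norm := (ring_nf; reduce_mod_char)) h3
    · have h3 := tV y (x - 1)
      simp only [ht, rot, qry, fce]
      simp only [if_true, if_false, Bool.false_eq_true]
      linear_combination (norm := (ring_nf; reduce_mod_char)) h3
    · have h3 := tV y x
      have h4 := sJ y true x
      have h5 := sJ y false x
      simp only [ht, rot, qry, fce]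
      simp only [if_true, if_false, Bool.false_eq_true]
      linear_combination (norm := (ring_nf; reduce_mod_char)) h3 + h4 + h5
    · have h3 := sP y x
      simp only [ht, rot, qry, fce]
      simp only [if_true, if_false, Bool.false_eq_true]
      linear_combination (norm := (ring_nf; reduce_mod_char)) h3
  have hadv : ∀ k, ht a P Q J k + ht a P Q J (adv k) = J k + Q (qry k) := by
    rintro ⟨x, y, _ | _, _ | _⟩
    · have h3 := tF (y - 1) x
      have h4 := sJ (y - 1) true x
      simp only [sub_add_cancel] at h3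
      simp only [ht, adv, qry, fce]
      simp only [if_true, if_false, Bool.false_eq_true]
      linear_combination (norm := (ring_nf; reduce_mod_char)) h3 + h4
    · have h3 := sQ y (x - 1)
      have h4 := sJ y true (x - 1)
      simp only [ht, adv, qry, fce]
      simp only [if_true, if_false, Bool.false_eq_true]
      linear_combination (norm := (ring_nf; reduce_mod_char)) h3 + h4
    · have h3 := sQ y x
      have h4 := sJ y false x
      simp only [ht, adv, qry, fce, add_sub_cancel_right]
      simp only [if_true, if_false, Bool.false_eq_true]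
      linear_combination (norm := (ring_nf; reduce_mod_char)) h3 + h4
    · have h3 := tF y x
      have h4 := sJ y true x
      simp only [ht, adv, qry, fce, add_sub_cancel_right]
      simp only [if_true, if_false, Bool.false_eq_true]
      linear_combination (norm := (ring_nf; reduce_mod_char)) h3 + h4
  refine ⟨ht a P Q J, hrot, hadv, ?_⟩
  -- vanishing to the left
  have hleft : ∀ k : Cor, k.1 < a → ht a P Q J k = 0 := by
    intro k hk
    have hf : (fce k).1 < a := by
      unfold fce
      dsimp only
      split_ifs <;> omega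
    unfold ht
    rw [ps_lt _ hf, ps_lt _ (show k.1 - 1 < a by omega), ps_lt _ (show k.1 - 1 < a by omega),
      hJ0 (k.1, k.2.1, false, k.2.2.2) (Or.inl hk), hJ0 k (Or.inl hk)]
    simp
  -- vanishing above and below
  have hud : ∀ k : Cor, k.2.1 < c ∨ d < k.2.1 → ht a P Q J k = 0 := by
    intro k hk
    have hf : (fce k).2 < c ∨ d < (fce k).2 + 1 := by
      unfold fce
      dsimp only
      split_ifs <;> omega
    unfold ht
    rw [ps_eq_zero (fun x => hP0 (x, (fce k).2, true) (by
        rcases hf with hf | hf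
        · exact Or.inr (Or.inr (Or.inl hf))
        · exact Or.inr (Or.inr (Or.inr (Or.inr ⟨rfl, hf⟩))))),
      ps_eq_zero (fun x => hQ0 (x, k.2.1, false) (Or.inr (Or.inr hk))),
      ps_eq_zero (fun x => by
        rw [hJ0 (x, k.2.1, false, k.2.2.2) (Or.inr (Or.inr hk)),
          hJ0 (x, k.2.1, true, k.2.2.2) (Or.inr (Or.inr hk)), add_zero]),
      hJ0 (k.1, k.2.1, false, k.2.2.2) (Or.inr (Or.inr hk)), hJ0 k (Or.inr (Or.inr hk))]
    simp
  -- vanishing to the right
  have hne : ∀ (x : ℤ), b < x → ∀ (n : ℕ) (y : ℤ), d < y + n → ht a P Q J (x, y, true, true) = 0 := by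
    intro x hx n
    induction n with
    | zero =>
      intro y hy
      exact hud _ (Or.inr (by simpa using hy))
    | succ n ih =>
      intro y hy
      have h3 := hadv (x, y, true, true)
      have h4 := hrot (x, y + 1, true, false)
      have h5 := ih (y + 1) (by push_cast at hy; omega)
      simp only [adv, rot, qry] at h3 h4
      rw [hJ0 _ (Or.inr (Or.inl hx)), hQ0 _ (Or.inr (Or.inl hx)), add_zero] at h3
      rw [hJ0 _ (Or.inr (Or.inl hx)), hP0 _ (Or.inr (Or.inl hx)), h5, add_zero, add_zero] at h4
      rw [h4, add_zero] at h3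
      exact h3
  have hright : ∀ k : Cor, b < k.1 → ht a P Q J k = 0 := by
    rintro ⟨x, y, s, t⟩ hx
    change b < x at hx
    have h0 := hne x hx (d - y + 1).toNat y (by omega)
    have h3 := hrot (x, y, true, true)
    have h4 := hrot (x, y, false, true)
    have h5 := hrot (x, y, true, false)
    simp only [rot, qry] at h3 h4 h5
    rw [hJ0 _ (Or.inr (Or.inl hx)), hP0 _ (Or.inr (Or.inl hx)), h0, zero_add, add_zero] at h3
    have h6 : P (x - 1, y, false) = 0 := by
      by_contra h
      have h7 := (hP _ h).2.2.1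
      simp only [eb, Bool.false_eq_true, if_false] at h7
      omega
    rw [hJ0 _ (Or.inr (Or.inl hx)), h3, h6, zero_add, zero_add] at h4
    rw [hJ0 _ (Or.inr (Or.inl hx)), hP0 _ (Or.inr (Or.inl hx)), h0, add_zero, add_zero] at h5
    rcases s with _ | _ <;> rcases t with _ | _
    · exact h4
    · exact h3
    · exact h5
    · exact h0
  intro k hk
  by_cases h3 : k.1 < a
  · exact hleft k h3
  by_cases h4 : b < k.1
  · exact hright k h4
  refine hud k ?_
  by_contra h5
  push Not at h5
  exact hk ⟨by simpa [vtx] using h3, by simpa [vtx] using h4, h5.1, h5.2⟩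

end Pool.Agent.PercU
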